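import Pool.Agent.H40.JsTri
import Pool.Agent.H40.JzDefs13

set_option autoImplicit false

namespace Pool.Agent.Results.MP_fc22d4_lc.Model

open Set Filter Metric
open Pool.Agent.H40.Bspt Pool.Agent.H40.Jz Pool.Agent.H40.Js Pool.Agent.H40.Js.Tri

/-- the topology `T` of `X` is induced by a Cantor complete metric -/
def CantorCM {M : Type} {E : M → M → Prop} (ℛ : Reals E) (X T : M) : Prop :=
  ∃ δ : Ex E X → Ex E X → Ex E ℛ.R, Intl2 E (fun x y => (δ x y).1) ∧ (∀ x y, δ x y = 0 ↔ x = y) ∧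
    (∀ x y, δ x y = δ y x) ∧ (∀ x y z, δ x z ≤ δ x y + δ y z) ∧
    (∀ U, E U T ↔ Sub E U X ∧ ∀ x : Ex E X, E x.1 U → ∃ ε > 0, ∀ y, δ x y < ε → E y.1 U) ∧
    ∀ F : Om E → M, Intl E F → (∀ n, Closed E X T (F n) ∧ ∃ x, E x (F n)) →
      (∀ m n : Om E, E m.1 n.1 → Sub E (F n) (F m)) →
      (∀ ε > 0, ∃ n, ∀ x y : Ex E X, E x.1 (F n) → E y.1 (F n) → δ x y < ε) → ∃ x, ∀ n, E x (F n)

variable (J : JS G Y)

theorem ccm : CantorCM J.reals (J.sA unA) J.T := by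
  let e := (J.eA unA).symm
  have hl : ∀ (x y : Ex J.E (J.sA unA)) ε, J.rI.symm (dist (e x).1 (e y).1) < ε ↔
      dist (e x).1 (e y).1 < J.rI ε := fun x y ε => by
    rw [← map_lt_map_iff J.rI, OrderRingIso.apply_symm_apply]
  refine ⟨fun x y => J.rI.symm (dist (e x).1 (e y).1), ?_, fun x y => ?_, fun x y => ?_,
    fun x y z => ?_, fun U => ⟨fun h => ?_, fun h => ?_⟩, fun F h1 h2 h3 h4 => ?_⟩
  · refine J.intl2_of (s := .a) (t := .a) (u := .w .n) univ (fun x : Y × Y => rho (dist x.1 x.2))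
      (Eventually.of_forall fun g x _ => ⟨trivial, congrArg rho (dist_smul g _ _)⟩) fun z w =>
        ⟨((e z).1, (e w).1), trivial, J.exE_symm (t := .a) _ z, J.exE_symm (t := .a) _ w, ?_⟩
    rw [J.rI_val, OrderRingIso.apply_symm_apply]
  · exact (map_eq_zero_iff J.rI.symm J.rI.symm.injective).trans
      (dist_eq_zero.trans (Subtype.val_inj.trans e.injective.eq_iff))
  · simp only [dist_comm]
  · rw [← map_add]
    exact (map_le_map_iff J.rI.symm).2 (dist_triangle _ _ _)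
  · obtain ⟨u, hu, rfl⟩ := J.elT h
    refine ⟨J.subA_iff.2 (subset_univ _), fun x hx => ?_⟩
    obtain ⟨x, rfl⟩ := (J.eA unA).surjective x
    obtain ⟨r, h1, h2⟩ := Metric.isOpen_iff.1 hu x.1 (J.memA.1 hx)
    refine ⟨J.rI.symm r, by simpa using (map_lt_map_iff J.rI.symm).2 h1, fun y hy => ?_⟩
    obtain ⟨y, rfl⟩ := (J.eA unA).surjective y
    rw [hl] at hy
    exact J.memA.2 (h2 (mem_ball'.2 (by simpa [e] using hy)))
  · obtain ⟨u, -, rfl⟩ := J.subA h.1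
    refine J.memT.2 (Metric.isOpen_iff.2 fun x hx => ?_)
    obtain ⟨ε, h1, h2⟩ := h.2 (J.eA unA ⟨x, trivial⟩) (J.memA.2 hx)
    refine ⟨J.rI ε, by simpa using (map_lt_map_iff J.rI).2 h1, fun y hy => ?_⟩
    refine J.memA.1 (h2 (J.eA unA ⟨y, trivial⟩) ?_)
    rw [hl]
    simpa [e] using mem_ball'.1 hy
  choose c c1 _ c2 using fun n : ℕ => J.closed_el (h2 (J.omE n)).1
  obtain ⟨D, d1, -, d2⟩ := supp_iff.1 (J.seq_sym (t := .w .a) h1 c1)
  have mo : ∀ {m n : ℕ}, m ≤ n → (c n).1 ⊆ (c m).1 := fun {m n} a => a.eq_or_lt.elim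
    (· ▸ subset_rfl) fun a => J.subA_iff.1 (c1 m ▸ c1 n ▸ h3 _ _ ((J.nat n _).2 ⟨m, a, rfl⟩))
  by_contra a
  have b : ∀ x, ∀ᶠ n in atTop, ∀ y ∈ (c n).1, ¬ Cg n x y := fun x => by
    obtain ⟨n, b⟩ := not_forall.1 (not_exists.1 a (J.nA x))
    obtain ⟨n, rfl⟩ := J.omE.surjective n
    rw [c1, J.memA] at b
    obtain ⟨U, f, g, i⟩ := _root_.mem_nhds_iff.1 (c2 n x trivial b)
    obtain ⟨m, j⟩ := op_iff.1 g x i
    exact (eventually_ge_atTop (max m n)).mono fun l k y o p =>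
      f (j (p.mono (le_of_max_le_left k))) (mo (le_of_max_le_right k) o)
  obtain ⟨m, b⟩ := ((eventually_all_finite d1).2 fun x _ => b x).exists
  obtain ⟨n, f⟩ := h4 (J.rI.symm ((1 / 2) ^ (m + 1 + 1))) (by
    simpa using (map_lt_map_iff J.rI.symm).2 (show (0 : ℝ) < (1 / 2) ^ (m + 1 + 1) by positivity))
  obtain ⟨n, rfl⟩ := J.omE.surjective n
  obtain ⟨y', g'⟩ := (h2 (J.omE (max m n))).2
  rw [c1] at g' f
  obtain ⟨y, g, -⟩ := J.elA g'
  have i := mo (le_max_right _ _) g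
  have j : sh m y 1 • y ∈ (c n).1 := by
    rw [← d2 (sh m y 1) (fun x k => sh_fix 1 fun l => b x k y (mo (le_max_left _ _) g) l.symm) n]
    exact smul_mem.2 i
  have := f (J.eA unA ⟨y, trivial⟩) (J.eA unA ⟨_, trivial⟩) (J.memA.2 i) (J.memA.2 j)
  rw [hl] at this
  simp only [e, Equiv.symm_apply_apply, OrderRingIso.apply_symm_apply] at this
  have := dist_le'.1 this.le m m.lt_succ_self
  rw [sh_at 1 Cg.rfl, sub_add_cancel_left, pow_succ] at this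
  exact absurd (dvd_of_mul_left_dvd this) (by decide)

theorem cpt_fin {s : PS G Y} (h : Compact J.E (J.sA s) J.T) : s.1.Finite := by
  obtain ⟨D, d1, -, d2⟩ := supp_iff.1 s.2
  refine d1.subset fun z a => by_contra fun b => ?_
  obtain ⟨m, c⟩ := avoid d1 b
  let U : ℕ → PS G Y := fun n => ⟨(V z m n)ᶜ, sym_compl ((fx z).mono fun g hg => V_inv hg m n)⟩
  obtain ⟨C, -, c1, c2⟩ := J.ctblS (σ := U) ((fx z).mono fun g hg n => Subtype.ext
    (Set.ext fun y => not_congr (V_inv (inv_smul_eq_iff.2 hg.symm) m n y)))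
  obtain ⟨B, e, f, g⟩ := h C (c2 _ fun n => J.memT.2 (V_closed z m n)) (J.allA.2 fun y _ =>
    (ex_pow (show 3 * (y m - z m) - 1 ≠ 0 by omega)).elim fun n i =>
      ⟨_, c1 n, J.memA.2 fun j => i j.2⟩)
  obtain ⟨N, i⟩ := ((eventually_all_finite (J.fin_ext f)).2 fun W i => c2 (fun W => ∀ᶠ N in atTop,
    ∀ y ∈ V z m N, ¬ J.E (J.nA y) W) (fun n => (eventually_ge_atTop n).mono fun N j y k l =>
      J.memA.1 l ⟨k.1, (pow_dvd_pow 2 j).trans k.2⟩) W (e W i)).exists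
  obtain ⟨k, l, j⟩ := (show IsCoprime (3 : ℤ) 2 from ⟨1, -1, by norm_num⟩).pow_right (n := N)
  obtain ⟨W, o, p⟩ := g _ (J.memA.2 ((d2 (sh m z k) (fun x q => sh_fix k (c x q)) z).2 a))
  exact i W o _ ⟨fun j q => sh_lt k q, -l, by rw [sh_at k Cg.rfl]; linarith⟩ p

theorem kloeb : Choice J.E fun K => Sub J.E K (J.sA unA) ∧ Compact J.E K J.T := by
  have ex : ∀ s : PS G Y, s.1.Finite ∧ s.1.Nonempty → ∃ x ∈ s.1, ∀ y ∈ s.1,
      (toLex x : Lex (ℕ → ℤ)) ≤ toLex y := fun s a => exists_min_image s.1 _ a.1 a.2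
  have : Nonempty Y := ⟨fun _ => 0⟩
  choose! f f1 f2 using ex
  have k : ∀ z : {F // (Sub J.E F (J.sA unA) ∧ Compact J.E F J.T) ∧ ∃ x, J.E x F}, ∃ s : PS G Y,
      (s.1.Finite ∧ s.1.Nonempty) ∧ z.1 = J.sA s := fun ⟨z, ⟨a, b⟩, x, c⟩ => by
    obtain ⟨s, -, rfl⟩ := J.subA a
    exact ⟨s, ⟨cpt_fin J b, (J.elA c).imp fun _ => And.left⟩, rfl⟩
  choose s s1 s2 using k
  refine ⟨fun z => J.nA (f (s z)), J.intl_of (s := .w .a) (t := .a)
    {s : PS G Y | s.1.Finite ∧ s.1.Nonempty} f (Eventually.of_forall fun g (u : PS G Y) a => ?_)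
    fun z => ⟨s z, s1 z, s2 z, rfl⟩, fun z => s2 z ▸ J.memA.2 (f1 _ (s1 z))⟩
  have b : (g • u).1.Finite ∧ (g • u).1.Nonempty :=
    ⟨a.1.preimage (MulAction.injective g⁻¹).injOn, _, smul_mem.2 (f1 u a)⟩
  have d : (toLex (g • f u : Y) : Lex (ℕ → ℤ)) ≤ toLex (g • g⁻¹ • f (g • u) : Y) :=
    (lex_mono g).monotone (f2 u a _ (Pool.Agent.H40.Js.mem_smul.1 (f1 _ b)))
  rw [smul_inv_smul] at d
  exact ⟨b, le_antisymm (α := Lex (ℕ → ℤ)) (f2 _ b _ (smul_mem.2 (f1 u a))) d⟩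

theorem cuf : CufBase J.E J.T := by
  have k : ∀ n (g : G) (U : PS G Y), (∃ x, U.1 = cls x n) → ∃ x, (g • U).1 = cls x n :=
    fun n g U ⟨x, a⟩ => ⟨g • x, Set.ext fun y => by
      rw [Pool.Agent.H40.Js.mem_smul, a]
      exact (cg_smul g).symm.trans (by rw [smul_inv_smul]; rfl)⟩
  let B : ℕ → PS G (PS G Y) := fun n => ⟨{U | ∃ x, U.1 = cls x n}, sym_all (k n)⟩
  have l : ∀ (g : G) n, g • B n = B n := fun g n => Subtype.ext (Set.ext fun U =>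
    ⟨fun a => smul_inv_smul g U ▸ k n g _ a, k n g⁻¹ U⟩)
  refine ⟨fun n => J.fA (B (J.omE.symm n)), J.intl_seq (t := .w (.w .a)) (σ := B)
    (Eventually.of_forall l), fun n =>
    ⟨J.finS.2 (((cls_fin _).preimage Subtype.val_injective.injOn).subset fun U ⟨x, a⟩ =>
      ⟨x, a.symm⟩), J.subS_iff.2 fun U ⟨x, a⟩ => show IsOpen U.1 from a ▸ (cls_clopen x _).2⟩,
    fun U x a b => ?_⟩
  · obtain ⟨u, c, rfl⟩ := J.elT a
    obtain ⟨x, d, rfl⟩ := J.elA b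
    obtain ⟨m, e⟩ := op_iff.1 c x d
    exact ⟨J.omE m, J.sA (cS x m), J.memS.2 ⟨x, by rw [Equiv.symm_apply_apply]; rfl⟩,
      J.memA.2 Cg.rfl, J.subA_iff.2 e⟩

theorem nloeb : ¬ Choice J.E (Closed J.E (J.sA unA) J.T) := by
  rintro ⟨μ, a, b⟩
  obtain ⟨D, d1, -, d2⟩ := supp_iff.1 (J.intl_sym (s := .w .a) (t := .a) a)
  have : Infinite Y := inferInstanceAs (Infinite (ℕ → ℤ))
  obtain ⟨z, c⟩ := d1.exists_notMem
  obtain ⟨m, e⟩ := avoid d1 c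
  let w : {F // Closed J.E (J.sA unA) J.T F ∧ ∃ x, J.E x F} := ⟨J.sA (cS z m),
    J.closed_of sb (subset_univ _) (cls_clopen z m).1, _, J.memA.2 Cg.rfl⟩
  obtain ⟨y, f, g⟩ := J.elA (b w)
  have := d2 (sh m z 1) (fun x i => sh_fix 1 (e x i)) w w (cS z m) y rfl (congrArg J.sA
    (Subtype.ext (Set.ext fun x => sf_cg.symm))) g
  have : y m = (sh m z 1 • y) m := congrFun (J.nA_inj (g.symm.trans this)) m
  rw [sh_at 1 f] at this
  omega

theorem result : ∃ (M : Type) (E : M → M → Prop) (ν : ℕ → M), IsZF E ∧ Numer E ν ∧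
    ∃ (ℛ : Reals E) (X T : M), IsTop E X T ∧ CantorCM ℛ X T ∧
      Choice E (fun K => Sub E K X ∧ Compact E K T) ∧ CufBase E T ∧ ¬ Choice E (Closed E X T) :=
  (ex_js fx).elim fun J => ⟨J.M, J.E, J.nu, J.zf, J.numer, J.reals, _, _, J.isTop, ccm J, kloeb J,
    cuf J, nloeb J⟩

end Pool.Agent.Results.MP_fc22d4_lc.Model
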